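import Pool.Agent.helper35.OT.Spec

set_option autoImplicit false

namespace Pool.Agent.helper35.OT

open Filter Topology

private lemma ORD_poly (A : Polynomial ℂ) (hA : A ≠ 0) (p : ℂ) : analyticOrderAt (fun x => A.eval x) p ≠ ⊤ := by
  intro h
  rw [analyticOrderAt_eq_top] at h
  apply hA
  apply Polynomial.eq_zero_of_infinite_isRoot
  exact infinite_of_mem_nhds p h

theorem ORD : ORD_stmt := by
  intro ρ W H A h0 h1 hA hW hH hW0 hW1 heq
  have hsq : ρ < Real.sqrt ρ := by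
    rw [Real.lt_sqrt h0.le]
    nlinarith
  have hρmem : (ρ : ℂ) ∈ Metric.ball (0 : ℂ) (Real.sqrt ρ) := by
    rw [mem_ball_zero_iff, Complex.norm_real, Real.norm_eq_abs, abs_of_pos h0]
    exact hsq
  have h0mem : (0 : ℂ) ∈ Metric.ball (0 : ℂ) (Real.sqrt ρ) := by
    rw [mem_ball_zero_iff, norm_zero]
    exact Real.sqrt_pos.mpr h0
  have hAan : AnalyticOnNhd ℂ (fun x => A.eval x) (Metric.ball 0 (Real.sqrt ρ)) := by
    intro x _
    exact A.differentiable.analyticAt x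
  have hf : AnalyticOnNhd ℂ ((fun x => A.eval x) ^ 2 * W) (Metric.ball 0 (Real.sqrt ρ)) := (hAan.pow 2).mul hW
  have hg : AnalyticOnNhd ℂ (H ^ 2) (Metric.ball 0 (Real.sqrt ρ)) := hH.pow 2
  have hev : ((fun x => A.eval x) ^ 2 * W) =ᶠ[𝓝 (0 : ℂ)] (H ^ 2) := by
    filter_upwards [Metric.ball_mem_nhds (0 : ℂ) h0] with x hx
    rw [mem_ball_zero_iff] at hx
    simp only [Pi.mul_apply, Pi.pow_apply]
    exact heq x hx
  have hEq : Set.EqOn ((fun x => A.eval x) ^ 2 * W) (H ^ 2) (Metric.ball 0 (Real.sqrt ρ)) :=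
    hf.eqOn_of_preconnected_of_eventuallyEq hg (convex_ball (0 : ℂ) (Real.sqrt ρ)).isPreconnected h0mem hev
  have hev2 : ((fun x => A.eval x) ^ 2 * W) =ᶠ[𝓝 (ρ : ℂ)] (H ^ 2) :=
    Filter.eventuallyEq_of_mem (Metric.isOpen_ball.mem_nhds hρmem) hEq
  have hord := analyticOrderAt_congr hev2
  have hWρ := hW ρ hρmem
  have hHρ := hH ρ hρmem
  have hAρ := hAan ρ hρmem
  rw [analyticOrderAt_mul (hAρ.pow 2) hWρ, analyticOrderAt_pow hAρ, analyticOrderAt_pow hHρ] at hord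
  have hW1' : analyticOrderAt W (ρ : ℂ) = 1 := by
    have e1 := hWρ.analyticOrderAt_deriv_add_one
    have e2 : analyticOrderAt (deriv W) (ρ : ℂ) = 0 := (hWρ.deriv.analyticOrderAt_eq_zero).2 hW1
    rw [e2, zero_add] at e1
    have e3 : (fun z => W z - W (ρ : ℂ)) = W := by
      funext z
      rw [hW0, sub_zero]
    rw [e3] at e1
    exact e1.symm
  rw [hW1'] at hord
  have hAfin := ORD_poly A hA (ρ : ℂ)
  obtain ⟨a, ha⟩ := ENat.ne_top_iff_exists.mp hAfin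
  rw [← ha] at hord
  have hHfin : analyticOrderAt H (ρ : ℂ) ≠ ⊤ := by
    intro h
    rw [h] at hord
    have e4 : (2 : ℕ) • (a : ℕ∞) + 1 = ((2 * a + 1 : ℕ) : ℕ∞) := by
      push_cast
      simp
    rw [e4] at hord
    have e5 : (2 : ℕ) • (⊤ : ℕ∞) = ⊤ := by
      rw [two_nsmul]
      rfl
    rw [e5] at hord
    exact ENat.coe_ne_top _ hord
  obtain ⟨b, hb⟩ := ENat.ne_top_iff_exists.mp hHfin
  rw [← hb] at hord
  have e6 : ((2 * a + 1 : ℕ) : ℕ∞) = ((2 * b : ℕ) : ℕ∞) := by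
    push_cast
    simpa using hord
  have e7 : 2 * a + 1 = 2 * b := by exact_mod_cast e6
  omega

end Pool.Agent.helper35.OT
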